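import Pool.Agent.Q109.RB.Density

/-!
Every graph class that excludes a fixed complete bipartite subgraph and has bounded reduced
bandwidth has linear expansion.
-/

set_option autoImplicit false

namespace Pool.Agent.Results.MP_f5a5c1_co.LinearExpansion

open Q109.RB

/-- `H` is an `r`-shallow minor of `G`: there are pairwise disjoint branch sets, one for each vertex
of `H`, each connected with radius at most `r`, such that every edge of `H` is realised by an edge
of `G` between the two branch sets. -/
def ShallowMinor {V W : Type} (r : ℕ) (H : SimpleGraph W) (G : SimpleGraph V) : Prop :=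
  ∃ B : W → Set V, (∀ i j, i ≠ j → Disjoint (B i) (B j)) ∧
    (∀ i, ∃ x ∈ B i, ∀ y ∈ B i, ∃ p : G.Walk x y, p.length ≤ r ∧ ∀ w ∈ p.support, w ∈ B i) ∧
    ∀ i j, H.Adj i j → ∃ a ∈ B i, ∃ b ∈ B j, G.Adj a b

/-- The class (a predicate on finite graphs) excludes a fixed complete bipartite subgraph. -/
def ExcludesBiclique (C : (V : Type) → SimpleGraph V → Prop) : Prop :=
  ∃ t : ℕ, ∀ (V : Type) [Fintype V] (G : SimpleGraph V), C V G →
    ¬ (completeBipartiteGraph (Fin t) (Fin t)).IsContained G

/-- The class has bounded reduced bandwidth. -/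
def BoundedReducedBandwidth (C : (V : Type) → SimpleGraph V → Prop) : Prop :=
  ∃ k : ℕ, ∀ (V : Type) [Fintype V] (G : SimpleGraph V), C V G → reducedBandwidth G ≤ k

/-- The class has linear expansion: for some constant `c`, every `r`-shallow minor `H` of a member
satisfies `|E(H)| / |V(H)| ≤ c (r + 1)`. -/
def HasLinearExpansion (C : (V : Type) → SimpleGraph V → Prop) : Prop :=
  ∃ c : ℝ, ∀ (V : Type) [Fintype V] (G : SimpleGraph V), C V G →
    ∀ (r : ℕ) (W : Type) [Fintype W] [Nonempty W] (H : SimpleGraph W), ShallowMinor r H G →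
      (H.edgeSet.ncard : ℝ) / (Fintype.card W : ℝ) ≤ c * ((r : ℝ) + 1)

/-- Every graph class (monotone or not) that excludes a fixed complete bipartite subgraph and has
bounded reduced bandwidth has linear expansion. -/
theorem result (C : (V : Type) → SimpleGraph V → Prop) (h1 : ExcludesBiclique C)
    (h2 : BoundedReducedBandwidth C) : HasLinearExpansion C := by
  obtain ⟨t, ht⟩ := h1
  obtain ⟨k, hk⟩ := h2
  refine ⟨((2 * (max (max t t) 2) + 2 * ((max (max t t) 2) * (6 * k + 1)) : ℕ) : ℝ), ?_⟩
  intro V _ G hG r W _ _ H ⟨B, hB1, hB2, hB3⟩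
  have h3 := noK_of_free (ht V G hG)
  have h4 := density (le_max_right _ _) h3 (hk V G hG) (⟨hB1, hB2, hB3⟩ : Model G H r B)
  have h5 := bnd_le (max (max t t) 2) k r
  have hpos : (0 : ℝ) < (Fintype.card W : ℝ) := by
    exact_mod_cast Fintype.card_pos
  rw [div_le_iff₀ hpos]
  have h6 : H.edgeSet.ncard ≤
      (2 * (max (max t t) 2) + 2 * ((max (max t t) 2) * (6 * k + 1))) * (r + 1) *
        Fintype.card W := h4.trans (Nat.mul_le_mul_right _ h5)
  exact_mod_cast h6

end Pool.Agent.Results.MP_f5a5c1_co.LinearExpansion
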